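import Pool.Agent.Results.MP_4a177b_nt.DoubleCoversProjectiveSpace
import Pool.Agent.V1158.BL.TorDC
set_option autoImplicit false

/-!
Beilinson's conjecture on the regulator on `K_j(X)^{(j)}`, `j = dim X + 1`, on the double covers
`z + 1/z = λ ∏_e L_e` of projective space of dimension `n + 1`, the `L_e` being `m + 1` affine forms in
general position with integral coefficients and unit maximal minors: there are unramified classes for
all simplices `S` with `n + 2` vertices in `{0, ..., m}`, and tori `Γ_T` in the complex points for all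
simplices `T` with `n + 1` vertices.

For `λ → ∞` all determinants `det (reg (Γ_{T_i}, S_j))` of size `r`, divided by
`((2 π) ^ d log |λ|) ^ r`, `d` the dimension, tend to the corresponding minors of the matrix of the
boundary operator of the simplex with the vertices `0, ..., m`. So the classes of every set of
simplices with linearly independent boundaries have linearly independent regulators, and the limit of
the determinant is known. In `DoubleCoversProjectiveSpace` only one determinant (for the simplices with
the vertex `0`) is treated, and only its nonvanishing is shown.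
-/

namespace Pool.Agent.Results.MP_4a177b_nt.DoubleCoverBoundaryLimits

open Pool.Agent.TH826.MK (KQ symb Unramified Torus)

open Pool.Agent.TH826.GA (Unimod)

open Pool.Agent.TH826.DC (dPhi)

open Pool.Agent.TH826.DC (DRing DOpen toD dcst dent)

open Pool.Agent.V1158.BL (bd minor)

/-- There are tori `Γ_T` of dimension `d = n + 1` in the complex points (over `σ`) of the open part of
the hypersurface, one for every simplex `T` with `n + 1` vertices in `{0, ..., m}`, such that for all
`r`, all different simplices `S_1, ..., S_r` with `n + 2` vertices and all different simplices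
`T_1, ..., T_r` with `n + 1` vertices the determinant of the regulators of the symbols of the `S_j`
on the tori of the `T_i`, divided by `((2 π) ^ d log |σ λ|) ^ r`, differs by less than `ε` from the
minor of the boundary matrix, and it is not zero if this minor is not zero. -/
def MinorLimit {K : Type*} [Field K] {n m : ℕ} (σ : K →+* ℂ) (lam : K)
    (c : Fin (m + 1) → Fin (n + 1) → K) (a : Fin (m + 1) → K) (ε : ℝ) : Prop :=
  ∃ Γ : (Fin (n + 1) ↪o Fin (m + 1)) → Torus (DOpen lam c a) (n + 1),
    (∀ T θ (x : K), (Γ T).e θ (dcst lam c a x) = σ x) ∧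
    ∀ (r : ℕ) (S : Fin r ↪ (Fin (n + 2) ↪o Fin (m + 1)))
      (T : Fin r ↪ (Fin (n + 1) ↪o Fin (m + 1))),
      |(Matrix.of fun i j => (Γ (T i)).reg (symb (dent lam c a (S j)))).det /
          ((2 * Real.pi) ^ (n + 1) * Real.log ‖σ lam‖) ^ r - minor S T| < ε ∧
        (minor S T ≠ 0 →
          (Matrix.of fun i j => (Γ (T i)).reg (symb (dent lam c a (S j)))).det ≠ 0)

/-- Let `n + 1 ≤ m`, let `σ` be a complex embedding of the number field `K`, and let
`L_e = ∑_j c_{e,j} x_j - a_e`, `0 ≤ e ≤ m`, be affine forms in `n + 1` variables with integral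
coefficients in `K`, such that all determinants `det (c_{T_i,j})` of `n + 1` different forms are units
(of the ring of algebraic integers) and no `n + 2` of the forms have a common zero over `K`. For every
`ε > 0` there is a constant `C` such that for all algebraic integers `λ` of `K` with `|σ λ| ≥ C`
* the coordinate ring of the hypersurface `z² - Φ z + 1 = 0`, `Φ = λ ∏_e L_e`, is a domain; it is
  smooth at the complex points over `σ`; and the symbols of all `n + 2` different forms are unramified
  at all discrete valuations of the function field (this is contained in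
  `DoubleCoversProjectiveSpace`);
* `MinorLimit` holds with `ε`.
If the boundaries of `S_1, ..., S_r` are linearly independent, there are `T_1, ..., T_r` for which the
minor is not zero. -/
theorem result (n m : ℕ) (hm : n + 1 ≤ m) (K : Type*) [Field K] [NumberField K]
    (σ : K →+* ℂ) (c : Fin (m + 1) → Fin (n + 1) → K) (a : Fin (m + 1) → K) (hA : Unimod c a)
    (hgen : ∀ S : Fin (n + 2) → Fin (m + 1), Function.Injective S → ∀ x : Fin (n + 1) → K,
      ∃ i, ∑ j, c (S i) j * x j ≠ a (S i)) :
    (∀ (r : ℕ) (S : Fin r ↪ (Fin (n + 2) ↪o Fin (m + 1))),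
      (LinearIndependent ℝ fun j => bd (S j)) →
        ∃ T : Fin r ↪ (Fin (n + 1) ↪o Fin (m + 1)), minor S T ≠ 0) ∧
    ∀ ε : ℝ, 0 < ε → ∃ C : ℝ, ∀ lam : K, IsIntegral ℤ lam → C ≤ ‖σ lam‖ →
      IsDomain (DRing lam c a) ∧
      (∀ (x : Fin (n + 1) → ℂ) (z : ℂ), z ^ 2 - MvPolynomial.eval₂ σ x (dPhi lam c a) * z + 1 = 0 →
        2 * z - MvPolynomial.eval₂ σ x (dPhi lam c a) ≠ 0 ∨
        ∃ j, MvPolynomial.eval₂ σ x (MvPolynomial.pderiv j (dPhi lam c a)) * z ≠ 0) ∧
      (∀ (L : Type*) [Field L] [Algebra (DRing lam c a) L] [IsFractionRing (DRing lam c a) L],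
        ∃ f : DOpen lam c a →+* L,
          (∀ b : DRing lam c a, f (toD lam c a b) = algebraMap (DRing lam c a) L b) ∧
          ∀ S : Fin (n + 2) → Fin (m + 1), Function.Injective S →
            KQ.map (n + 2) f (symb (dent lam c a S)) ∈ Unramified L (n + 2)) ∧
      MinorLimit σ lam c a ε := by
  refine ⟨fun r S h => Pool.Agent.V1158.BL.exists_minor S h, ?_⟩
  obtain ⟨C1, hC1⟩ := Pool.Agent.Results.MP_4a177b_nt.DoubleCoversProjectiveSpace.result n m hm K σ c a hA hgen
  intro ε hε
  obtain ⟨δ, hδ, hδ2⟩ := Pool.Agent.V1158.BL.exists_delta_minor (n := n) (m := m) hε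
  obtain ⟨C2, hC2, h2⟩ := Pool.Agent.V1158.BL.exists_allDC (a := a) σ hA.det_ne hgen hδ
  refine ⟨max C1 C2, fun lam hlam hl => ?_⟩
  obtain ⟨g1, g2, g3, -⟩ := hC1 lam hlam ((le_max_left _ _).trans hl)
  refine ⟨g1, g2, g3, ?_⟩
  have hl2 : C2 ≤ ‖σ lam‖ := (le_max_right _ _).trans hl
  obtain ⟨Γ, hΓ1, hΓ2⟩ := h2 lam hl2
  refine ⟨Γ, hΓ1, fun r S T => ?_⟩
  set t : ℝ := (2 * Real.pi) ^ (n + 1) * Real.log ‖σ lam‖ with ht
  have ht0 : t ≠ 0 := by
    have h3 : 0 < Real.log ‖σ lam‖ := Real.log_pos (by linarith)
    have := Real.pi_pos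
    positivity
  obtain ⟨h4, h5⟩ := hδ2 (fun S T => (Γ T).reg (symb (dent lam c a S)) / t)
    (fun S T => hΓ2 T S) r S T
  have h6 : (Matrix.of fun i j => (Γ (T i)).reg (symb (dent lam c a (S j)))) =
      t • (Matrix.of fun i j => (Γ (T i)).reg (symb (dent lam c a (S j))) / t) := by
    ext i j
    rw [Matrix.smul_apply, Matrix.of_apply, Matrix.of_apply, smul_eq_mul]
    field_simp
  have h7 : (Matrix.of fun i j => (Γ (T i)).reg (symb (dent lam c a (S j)))).det =
      t ^ r * (Matrix.of fun i j => (Γ (T i)).reg (symb (dent lam c a (S j))) / t).det := by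
    rw [h6, Matrix.det_smul, Fintype.card_fin]
  rw [h7, mul_div_cancel_left₀ _ (pow_ne_zero r ht0)]
  exact ⟨h4, fun h => mul_ne_zero (pow_ne_zero r ht0) (h5 h)⟩

end Pool.Agent.Results.MP_4a177b_nt.DoubleCoverBoundaryLimits
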