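import Pool.Agent.V11133.BEI.Lim
import Pool.Agent.TH577.UA.Smooth
import Pool.Agent.TH577.UA.Dom
set_option autoImplicit false

/-!
Beilinson's conjecture on the regulator on `K_j(X)^{(j)}`, `j = dim X + 1`, on the hypersurfaces
`λ g ∏_e L_e ^ (w_e + 1) = 1` over `ℚ` of all dimensions `n ≥ 1`, the `L_e` being arbitrary different
affine forms with integers as coefficients whose maximal minors are `0`, `1` or `-1` (for example the
forms `x_i - x_j - a`, `a` in `ℤ`, in coordinates of a hyperplane): the limit formula for the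
determinants of the regulators of unramified classes in Milnor K-theory. For `λ → ∞` the
determinant, divided by `(- log |λ|) ^ N`, tends to `∏_T (2π)^n (w_{T_0} + 1)^(n - 1)`, the product
over the `N` bases `T` without broken circuits and of internal activity zero.
-/

namespace Pool.Agent.Results.MP_4a177b_nt.HypersurfaceLimits

open Pool.Agent.TH826.MK (KQ symb Unramified Torus)

open Pool.Agent.TH826.GA (cm vtx)

open Pool.Agent.TH577.UA

/-- The data: affine forms `L_e = ∑_j c_{e,j} x_j - a_e` with integral coefficients, `0 ≤ e ≤ m`,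
numbers `w_e` and a polynomial `g` with integral coefficients, in `n + 1` variables. -/
structure IntData (n m : ℕ) where
  /-- the coefficients `c_{e,j}` -/
  c : Fin (m + 1) → Fin (n + 1) → ℤ
  /-- the constants `a_e` -/
  a : Fin (m + 1) → ℤ
  /-- the numbers `w_e` -/
  w : Fin (m + 1) → ℕ
  /-- the polynomial `g` -/
  g : MvPolynomial (Fin (n + 1)) ℤ

namespace IntData

variable {n m : ℕ} (D : IntData n m)

/-- the coefficients in `ℚ` -/
def cQ (e : Fin (m + 1)) (j : Fin (n + 1)) : ℚ := Int.castRingHom ℚ (D.c e j)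

/-- the constants in `ℚ` -/
def aQ (e : Fin (m + 1)) : ℚ := Int.castRingHom ℚ (D.a e)

/-- the polynomial `g` over `ℚ` -/
noncomputable def gQ : MvPolynomial (Fin (n + 1)) ℚ := MvPolynomial.map (Int.castRingHom ℚ) D.g

/-- All maximal minors of the linear parts are `0`, `1` or `-1`, not all of them are zero, no form is
a multiple of another one, and `g` does not vanish at the vertices of the arrangement. -/
def Good : Prop :=
  (∀ T : Fin (n + 1) → Fin (m + 1), (cm D.c T).det = 0 ∨ (cm D.c T).det = 1 ∨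
    (cm D.c T).det = -1) ∧
  (∃ T : Fin (n + 1) → Fin (m + 1), (cm D.c T).det ≠ 0) ∧
  Distinct D.cQ D.aQ ∧
  ∀ T : Fin (n + 1) → Fin (m + 1), (cm D.c T).det ≠ 0 →
    MvPolynomial.eval (vtx D.cQ D.aQ T) D.gQ ≠ 0

/-- the equation of the hypersurface -/
noncomputable def eqn (lam : ℤ) : MvPolynomial (Fin (n + 1)) ℚ := aeqn (lam : ℚ) D.gQ D.w D.cQ D.aQ

/-- the coordinate ring of the hypersurface -/
abbrev Ring (lam : ℤ) : Type := ARing (lam : ℚ) D.gQ D.w D.cQ D.aQ

/-- the symbol of the basis `T` -/
noncomputable def sym (lam : ℤ) (T : Fin (n + 1) → Fin (m + 1)) : KQ (D.Ring lam) (n + 1) :=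
  symb (aent (lam : ℚ) D.gQ D.w D.cQ D.aQ T)

/-- the index set -/
abbrev Index : Type := Ix D.cQ D.aQ

/-- the matrix of the regulators of the symbols on the tori `Γ_T` -/
noncomputable def regMat (lam : ℤ) (Γ : D.Index → Torus (D.Ring lam) n) :
    Matrix D.Index D.Index ℝ :=
  Matrix.of fun T T' => (Γ T).reg (D.sym lam T'.1)

/-- the product `∏_T (2π)^n (w_{T_0} + 1)^(n - 1)` -/
noncomputable def limit : ℝ :=
  ∏ T : D.Index, (2 * Real.pi) ^ n * ((D.w (T.1 0) : ℝ) + 1) ^ (n - 1)

/-- If `g = 1`, the hypersurface is smooth, and if moreover `w_e = 0` for a nonconstant form `L_e`,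
its coordinate ring is a domain. -/
def SmoothDomain (lam : ℤ) : Prop :=
  D.g = 1 →
    (∀ x : Fin (n + 1) → ℂ,
      MvPolynomial.eval₂ (algebraMap ℚ ℂ) x (D.eqn lam) = 0 →
      ∃ j, MvPolynomial.eval₂ (algebraMap ℚ ℂ) x (MvPolynomial.pderiv j (D.eqn lam)) ≠ 0) ∧
    ((∃ e, D.w e = 0 ∧ ∃ j, D.c e j ≠ 0) → IsDomain (D.Ring lam))

/-- The symbols of all the bases `T` have unramified images in the rational Milnor K-theory of all
fields with a homomorphism from the coordinate ring. -/
def UnramifiedSymbols.{v} (lam : ℤ) : Prop :=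
  ∀ (L : Type v) [Field L] (f : D.Ring lam →+* L) (T : Fin (n + 1) → Fin (m + 1)),
    (cm D.c T).det ≠ 0 → KQ.map (n + 1) f (D.sym lam T) ∈ Unramified L (n + 1)

/-- There are tori `Γ_T` of dimension `n` in the complex points such that the determinant of the
regulators of the symbols of the `T'` on the tori `Γ_T`, `T` and `T'` in `Ix`, is not zero and,
divided by `(- log |λ|) ^ N`, differs from `∏_T (2π)^n (w_{T_0} + 1)^(n - 1)` by less than `ε`. -/
def DeterminantWithin (lam : ℤ) (ε : ℝ) : Prop :=
  ∃ Γ : D.Index → Torus (D.Ring lam) n,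
    (∀ T θ (x : ℚ), (Γ T).e θ (acst (lam : ℚ) D.gQ D.w D.cQ D.aQ x) = algebraMap ℚ ℂ x) ∧
    |(D.regMat lam Γ).det / (-Real.log |(lam : ℝ)|) ^ Fintype.card D.Index - D.limit| < ε ∧
    (D.regMat lam Γ).det ≠ 0

variable {D}

theorem det_cast (T : Fin (n + 1) → Fin (m + 1)) :
    (cm D.cQ T).det = Int.castRingHom ℚ (cm D.c T).det := by
  rw [RingHom.map_det]
  rfl

theorem det_ne {T : Fin (n + 1) → Fin (m + 1)} : (cm D.cQ T).det ≠ 0 ↔ (cm D.c T).det ≠ 0 := by
  rw [det_cast, not_iff_not]
  exact Int.cast_eq_zero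

end IntData

/-- Let `1 ≤ n`, and let `L_e = ∑_j c_{e,j} x_j - a_e`, `0 ≤ e ≤ m`, be affine forms in `n + 1`
variables with coefficients in `ℤ`, such that all determinants `det (c_{T_i,j})` of `n + 1` of the
forms are `0`, `1` or `-1`, not all of them are zero, and no form is a multiple of another one. Let
`w_e ≥ 0` be integers and let `g` be a polynomial with coefficients in `ℤ` which does not vanish at
the vertices of the arrangement. For every `ε > 0` there is a constant `C` such that for all
integers `λ` with `|λ| ≥ C` the following holds for the coordinate ring `A` of the hypersurface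
`λ g ∏_e L_e ^ (w_e + 1) = 1` of dimension `n` over `ℚ`.

If `g = 1`, the hypersurface is smooth, and if moreover `w_e = 0` for a nonconstant form `L_e`, the
ring `A` is a domain.

For all `T = (T_0, ..., T_n)` with nonzero determinant the symbol `{u_0, ..., u_n}`,
`u_i = κ_i L_{T_i} / L_{h_i}` (`h_i` is the largest index such that the determinant of `T` with
`T_i` replaced by `h_i` is not zero and `κ_i` is the quotient of this determinant and of the one of
`T`), has unramified images in the rational Milnor K-theory of all fields `L` with a homomorphism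
`A → L`.

There are tori `Γ_T` of dimension `n` in the complex points of the hypersurface, such that the
determinant of the regulators of the symbols of the `T'` on the tori `Γ_T` does not vanish and,
divided by `(-log |λ|) ^ N`, differs from `∏_T (2π)^n (w_{T_0} + 1)^(n - 1)` by less than `ε`; here
`T` and `T'` run through the set `Ix` of all `T_0 < ... < T_n` with nonzero determinant such that
every `T_i` can be replaced by a later form (with nonzero determinant), and every other form which
vanishes at the vertex of `T` can replace a later form `T_i`, and `N` is the number of the elements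
of `Ix`. -/
theorem result.{v} (n : ℕ) (hn : 1 ≤ n) (m : ℕ) (D : IntData n m) (hD : D.Good) (ε : ℝ)
    (hε : 0 < ε) :
    ∃ C : ℝ, ∀ lam : ℤ, C ≤ |(lam : ℝ)| →
      D.SmoothDomain lam ∧ D.UnramifiedSymbols.{v} lam ∧ D.DeterminantWithin lam ε := by
  obtain ⟨hU, ⟨T0, hT0⟩, hdist, hv⟩ := hD
  have hA : UMod D.cQ D.aQ :=
    { int_c := fun e j => isIntegral_algebraMap (R := ℤ) (A := ℚ) (x := D.c e j)
      int_a := fun e => isIntegral_algebraMap (R := ℤ) (A := ℚ) (x := D.a e)
      det_inv := fun T => by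
        rw [IntData.det_cast]
        rcases hU T with h | h | h
        · left
          rw [h, map_zero]
        · right
          rw [h, map_one, inv_one]
          exact isIntegral_one
        · right
          rw [h, map_neg, map_one, inv_neg, inv_one]
          exact isIntegral_one.neg }
  have hR : ∃ T : Fin (n + 1) → Fin (m + 1), (cm D.cQ T).det ≠ 0 := ⟨T0, IntData.det_ne.2 hT0⟩
  have hv' : ∀ T : Fin (n + 1) → Fin (m + 1), (cm D.cQ T).det ≠ 0 →
      MvPolynomial.eval (vtx D.cQ D.aQ T) D.gQ ≠ 0 := fun T hT => hv T (IntData.det_ne.1 hT)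
  have hg : ∀ k, IsIntegral ℤ (D.gQ.coeff k) := by
    intro k
    unfold IntData.gQ
    rw [MvPolynomial.coeff_map]
    exact isIntegral_algebraMap
  have hnorm : ∀ lam : ℤ, ‖algebraMap ℚ ℂ (lam : ℚ)‖ = |(lam : ℝ)| := by
    intro lam
    have h1 : algebraMap ℚ ℂ (lam : ℚ) = ((lam : ℝ) : ℂ) := by
      rw [map_intCast]
      norm_num
    rw [h1, Complex.norm_real, Real.norm_eq_abs]
  obtain ⟨d, rfl⟩ : ∃ d, n = d + 1 := ⟨n - 1, by omega⟩
  obtain ⟨c1, hc1, h⟩ := Pool.Agent.V11133.BEI.limit_tori (g := D.gQ) (w := D.w) (algebraMap ℚ ℂ)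
    hdist hv' hε
  obtain ⟨c2, h2⟩ := exists_smooth (a := D.aQ) (algebraMap ℚ ℂ) hR D.w
  refine ⟨max c1 c2, fun lam hl => ?_⟩
  rw [← hnorm] at hl
  have hl1 : c1 ≤ ‖algebraMap ℚ ℂ (lam : ℚ)‖ := (le_max_left _ _).trans hl
  have hl0 : (lam : ℚ) ≠ 0 := by
    intro h0
    rw [h0, map_zero, norm_zero] at hl1
    linarith
  refine ⟨fun hg1 => ?_, fun L _ f T hT => symb_mem_unramified f
    (isIntegral_algebraMap (R := ℤ) (A := ℚ) (x := lam)) hg hA (IntData.det_ne.2 hT), ?_⟩
  · have hg2 : D.gQ = 1 := by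
      unfold IntData.gQ
      rw [hg1, map_one]
    unfold IntData.eqn IntData.Ring
    rw [hg2]
    exact ⟨h2 (lam : ℚ) ((le_max_right _ _).trans hl), fun ⟨e, he1, j, he2⟩ =>
      isDomain_ARing hR hdist ⟨j, fun h0 => he2 (Int.cast_eq_zero.1 h0)⟩ he1 hl0⟩
  · obtain ⟨Γ, h3, h4, h5⟩ := h (lam : ℚ) hl1
    refine ⟨Γ, h3, ?_, h5⟩
    have h6 : ∏ T : Ix D.cQ D.aQ, Pool.Agent.V11133.BEI.coef (d + 1) (D.w (T.1 0)) =
        ∏ T : Ix D.cQ D.aQ, (2 * Real.pi) ^ (d + 1) * ((D.w (T.1 0) : ℝ) + 1) ^ (d + 1 - 1) :=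
      Finset.prod_congr rfl fun T _ => Pool.Agent.V11133.BEI.coef_eq hn _
    rw [h6, hnorm] at h4
    exact h4

end Pool.Agent.Results.MP_4a177b_nt.HypersurfaceLimits
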